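import Pool.Agent.IVT.Comp

set_option autoImplicit false

namespace Pool.Agent.Results.MP_be493c_co.NearBisection

/-- Every finite cubic graph (connected or not, with or without a perfect matching) has a 2-colouring
of its vertices in which every monochromatic connected component has at most 2 vertices and the
sizes of the two colour classes differ by at most 2. -/
theorem result :
    ∀ (V : Type) [Fintype V] [DecidableEq V] (G : SimpleGraph V) [DecidableRel G.Adj],
      G.IsRegularOfDegree 3 →
      ∃ c : V → Bool,
        (Finset.univ.filter (fun v => c v = true)).card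
          ≤ (Finset.univ.filter (fun v => c v = false)).card + 2 ∧
        (Finset.univ.filter (fun v => c v = false)).card
          ≤ (Finset.univ.filter (fun v => c v = true)).card + 2 ∧
        ∀ v : V, {w : V | (G ⊓ SimpleGraph.fromRel (fun a b : V => c a = c b)).Reachable v w}.ncard
          ≤ 2 := by
  intro V _ _ G _ hG
  obtain ⟨c, hc, hI⟩ := Pool.Agent.IVT.exists_valid_le_two G hG
  rw [Pool.Agent.IVT.sgn_true_eq, abs_le] at hI
  refine ⟨c, ?_, ?_, Pool.Agent.IVT.comp_le_two G c hc⟩
  · omega
  · omega

end Pool.Agent.Results.MP_be493c_co.NearBisection
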